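import Pool.Agent.H334R2.CM.Defs

/-!
Group algebras are symmetric algebras (task SYM of helper334).
-/

set_option autoImplicit false
open scoped Matrix MatrixGroups
universe u

namespace CM.SYM

variable {k : Type u} [Field k] {G : Type} [Group G]

/-- the symmetrising form: the coefficient at `1` -/
noncomputable def tr : MonoidAlgebra k G →ₗ[k] k :=
  (Finsupp.lapply (1 : G)) ∘ₗ (MonoidAlgebra.coeffLinearEquiv k).toLinearMap

lemma tr_apply (x : MonoidAlgebra k G) : tr x = x.coeff 1 := rfl

lemma tr_comm (x y : MonoidAlgebra k G) : tr (x * y) = tr (y * x) := by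
  induction y using MonoidAlgebra.induction_linear with
  | zero => simp
  | add y z hy hz => rw [mul_add, add_mul, map_add, map_add, hy, hz]
  | single m r =>
    rw [tr_apply, tr_apply, MonoidAlgebra.coeff_mul_single_apply,
      MonoidAlgebra.coeff_single_mul_apply]
    simp [mul_comm]

lemma exists_tr_ne (x : MonoidAlgebra k G) (hx : x ≠ 0) : ∃ a, tr (x * a) ≠ 0 := by
  obtain ⟨g, hg⟩ : ∃ g, x.coeff g ≠ 0 := by
    by_contra h
    push Not at h
    apply hx
    apply MonoidAlgebra.ext
    ext g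
    simpa using h g
  refine ⟨MonoidAlgebra.single g⁻¹ 1, ?_⟩
  rw [tr_apply, MonoidAlgebra.coeff_mul_single_apply]
  simpa using hg

lemma le [Finite G] (e f : MonoidAlgebra k G) (he : e * e = e) (hf : f * f = f) :
    Module.finrank k (cor k e f) ≤ Module.finrank k (cor k f e) := by
  have : FiniteDimensional k (MonoidAlgebra k G) :=
    Module.Finite.equiv (MonoidAlgebra.coeffLinearEquiv k (S := k) (M := G)).symm
  let B : cor k e f →ₗ[k] Module.Dual k (cor k f e) :=
    ((LinearMap.mul k (MonoidAlgebra k G)).compl₁₂ (cor k e f).subtype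
      (cor k f e).subtype).compr₂ tr
  have hB : ∀ x y, B x y = tr ((x : MonoidAlgebra k G) * (y : MonoidAlgebra k G)) := fun x y => rfl
  have hinj : Function.Injective B := by
    rw [injective_iff_map_eq_zero]
    intro x hx
    by_contra hx0
    have hx1 : (x : MonoidAlgebra k G) ≠ 0 := fun h => hx0 (Subtype.ext h)
    obtain ⟨a, ha⟩ := exists_tr_ne _ hx1
    obtain ⟨h1, h2⟩ := mem_cor.1 x.2
    have hy : f * a * e ∈ cor k f e := by
      refine mem_cor.2 ⟨?_, ?_⟩
      · rw [← mul_assoc, ← mul_assoc, hf]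
      · rw [mul_assoc, he]
    apply ha
    have h3 := hB x ⟨f * a * e, hy⟩
    rw [hx, LinearMap.zero_apply] at h3
    have h4 : tr ((x : MonoidAlgebra k G) * (f * a * e)) = tr ((x : MonoidAlgebra k G) * a) := by
      rw [← mul_assoc, tr_comm, ← mul_assoc, ← mul_assoc, h1, h2]
    rw [← h4, ← h3]
  calc Module.finrank k (cor k e f) ≤ Module.finrank k (Module.Dual k (cor k f e)) :=
        LinearMap.finrank_le_finrank_of_injective hinj
    _ = Module.finrank k (cor k f e) := Subspace.dual_finrank_eq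

end CM.SYM

namespace CM

/-- `k G` is a symmetric algebra: `dim e A f = dim f A e` -/
theorem SYM {k : Type u} [Field k] {G : Type} [Group G] [Finite G] (e f : MonoidAlgebra k G)
    (he : e * e = e) (hf : f * f = f) :
    Module.finrank k (cor k e f) = Module.finrank k (cor k f e) :=
  le_antisymm (SYM.le e f he hf) (SYM.le f e hf he)

/-- if `e A e = k e` then `A e` is simple -/
theorem SIMP {k : Type u} [Field k] {G : Type} [Group G] [Finite G] (e : MonoidAlgebra k G)
    (he : e * e = e) (he0 : e ≠ 0) (h1 : Module.finrank k (cor k e e) = 1) :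
    IsSimpleModule (MonoidAlgebra k G)
      (Submodule.span (MonoidAlgebra k G) {e} : Submodule (MonoidAlgebra k G) _) := by
  have : FiniteDimensional k (MonoidAlgebra k G) :=
    Module.Finite.equiv (MonoidAlgebra.coeffLinearEquiv k (S := k) (M := G)).symm
  have hee : e ∈ cor k e e := mem_cor.2 ⟨he, he⟩
  have hk : ∀ y ∈ cor k e e, ∃ c : k, c • e = y := by
    intro y hy
    have h2 := (finrank_eq_one_iff_of_nonzero' (⟨e, hee⟩ : cor k e e)
      (fun h => he0 (congrArg Subtype.val h))).1 h1 ⟨y, hy⟩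
    obtain ⟨c, hc⟩ := h2
    exact ⟨c, congrArg Subtype.val hc⟩
  rw [isSimpleModule_iff_toSpanSingleton_surjective]
  refine ⟨⟨⟨⟨e, Submodule.mem_span_singleton_self e⟩, 0, fun h => he0 (congrArg Subtype.val h)⟩⟩, ?_⟩
  rintro ⟨x, hx⟩ hx0 ⟨y, hy⟩
  have hx1 : x ≠ 0 := fun h => hx0 (Subtype.ext h)
  obtain ⟨a, rfl⟩ := Submodule.mem_span_singleton.1 hx
  obtain ⟨b, rfl⟩ := Submodule.mem_span_singleton.1 hy
  obtain ⟨d, hd⟩ := SYM.exists_tr_ne _ hx1
  have hz : e * d * (a • e) ∈ cor k e e := by
    refine mem_cor.2 ⟨?_, ?_⟩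
    · rw [← mul_assoc, ← mul_assoc, he]
    · rw [smul_eq_mul, mul_assoc, mul_assoc a, he]
  obtain ⟨c, hc⟩ := hk _ hz
  have hc0 : c ≠ 0 := by
    rintro rfl
    apply hd
    rw [zero_smul] at hc
    have h3 : SYM.tr ((a • e) * d) = SYM.tr (e * d * (a • e)) := by
      rw [SYM.tr_comm, mul_assoc, SYM.tr_comm e, mul_assoc, smul_eq_mul, mul_assoc a, he]
    rw [h3, ← hc, map_zero]
  refine ⟨c⁻¹ • (b * (e * d)), ?_⟩
  apply Subtype.ext
  simp only [LinearMap.toSpanSingleton_apply, SetLike.val_smul]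
  rw [smul_assoc, smul_eq_mul, mul_assoc, ← hc, mul_smul_comm, smul_smul, inv_mul_cancel₀ hc0,
    one_smul, smul_eq_mul]

end CM
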